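import Pool.Agent.H59.LIN.HLO

/-!
# Row PHL of `lin_modules`: the basic symbols depend only on the sub-diagram
-/

set_option autoImplicit false

open Finset Polynomial

namespace Pool.Agent.H61.LIN

open Pool.Agent.H59.LIN

section

variable {d d' : ℕ} {j : Fin d' ↪ Fin d} {A₀ : Finset (Fin d')}

/-- the set functions agree on the subsets of `A₀` -/
def Agr (j : Fin d' ↪ Fin d) (A₀ : Finset (Fin d')) (f : SF (Fin d) ℚ) (g : SF (Fin d') ℚ) : Prop :=
  ∀ A ⊆ A₀, f (A.map j) = g A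

theorem Agr.mul {f f₁ : SF (Fin d) ℚ} {g g₁ : SF (Fin d') ℚ} (h : Agr j A₀ f g)
    (h₁ : Agr j A₀ f₁ g₁) : Agr j A₀ (f * f₁) (g * g₁) := by
  intro A hA
  rw [SF.mul_def, SF.mul_def]
  symm
  refine Finset.sum_nbij (fun B => B.map j) ?_ ?_ ?_ ?_
  · intro B hB
    rw [Finset.mem_powerset] at hB ⊢
    exact Finset.map_subset_map.2 hB
  · intro B _ C _ hBC
    exact Finset.map_injective j hBC
  · intro C hC
    rw [Finset.mem_coe, Finset.mem_powerset] at hC
    obtain ⟨B, hB, hBC⟩ := Finset.subset_map_iff.1 hC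
    exact ⟨B, Finset.mem_coe.2 (Finset.mem_powerset.2 hB), hBC.symm⟩
  · intro B hB
    rw [Finset.mem_powerset] at hB
    have h2 : A.map j \ B.map j = (A \ B).map j := by
      ext x
      simp only [Finset.mem_sdiff, Finset.mem_map]
      constructor
      · rintro ⟨⟨a, ha, rfl⟩, h3⟩
        exact ⟨a, ⟨ha, fun h4 => h3 ⟨a, h4, rfl⟩⟩, rfl⟩
      · rintro ⟨a, ⟨ha, h3⟩, rfl⟩
        exact ⟨⟨a, ha, rfl⟩, fun ⟨c, hc, h4⟩ => h3 (j.injective h4 ▸ hc)⟩
    rw [h2, h B (hB.trans hA), h₁ (A \ B) (Finset.sdiff_subset.trans hA)]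

theorem Agr.one : Agr j A₀ (1 : SF (Fin d) ℚ) (1 : SF (Fin d') ℚ) := by
  intro A _
  rw [SF.one_def, SF.one_def]
  simp only [Finset.map_eq_empty]

theorem Agr.pow {f : SF (Fin d) ℚ} {g : SF (Fin d') ℚ} (h : Agr j A₀ f g) (k : ℕ) :
    Agr j A₀ (f ^ k) (g ^ k) := by
  induction k with
  | zero =>
    rw [pow_zero, pow_zero]
    exact Agr.one
  | succ k ih =>
    rw [pow_succ, pow_succ]
    exact ih.mul h

theorem Agr.smul {f : SF (Fin d) ℚ} {g : SF (Fin d') ℚ} (h : Agr j A₀ f g) (c : ℚ) :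
    Agr j A₀ (c • f) (c • g) := by
  intro A hA
  rw [SF.smul_def', SF.smul_def', h A hA]

theorem Agr.sub {f f₁ : SF (Fin d) ℚ} {g g₁ : SF (Fin d') ℚ} (h : Agr j A₀ f g)
    (h₁ : Agr j A₀ f₁ g₁) : Agr j A₀ (f - f₁) (g - g₁) := by
  intro A hA
  have h2 : (f - f₁) (A.map j) = f (A.map j) - f₁ (A.map j) := rfl
  have h3 : (g - g₁) A = g A - g₁ A := rfl
  rw [h2, h3, h A hA, h₁ A hA]

theorem Agr.zero : Agr j A₀ (0 : SF (Fin d) ℚ) (0 : SF (Fin d') ℚ) := by
  intro A _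
  rfl

theorem Agr.add {f f₁ : SF (Fin d) ℚ} {g g₁ : SF (Fin d') ℚ} (h : Agr j A₀ f g)
    (h₁ : Agr j A₀ f₁ g₁) : Agr j A₀ (f + f₁) (g + g₁) := by
  intro A hA
  rw [SF.add_def, SF.add_def, h A hA, h₁ A hA]

theorem Agr.sum {ι : Type} (s : Finset ι) {f : ι → SF (Fin d) ℚ} {g : ι → SF (Fin d') ℚ}
    (h : ∀ i ∈ s, Agr j A₀ (f i) (g i)) : Agr j A₀ (∑ i ∈ s, f i) (∑ i ∈ s, g i) := by
  classical
  induction s using Finset.induction_on with
  | empty =>
    rw [Finset.sum_empty, Finset.sum_empty]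
    exact Agr.zero
  | insert a s ha ih =>
    rw [Finset.sum_insert ha, Finset.sum_insert ha]
    exact (h a (Finset.mem_insert_self a s)).add
      (ih fun i hi => h i (Finset.mem_insert_of_mem hi))

end

/-- PHL: the basic symbols depend only on the sub-diagram -/
theorem pf_PHL (hHLO : Pool.Agent.H59.LIN.T_HLO) : Pool.Agent.H59.LIN.T_PHL := by
  intro d d' D D' j A₀ b h
  have heta : ∀ m i : ℕ, Agr j A₀ (eta D m i) (eta D' m i) := by
    intro m i A hA
    have h1 := hHLO d d' D D' j A (sub_map_of D D' j A₀ A hA h)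
    unfold Pool.Agent.H59.LIN.eta
    simp only [Finset.card_map, h1]
  have hphi : Agr j A₀ (phi D b) (phi D' b) := by
    unfold phi
    by_cases h1 : b.1 = 0
    · rw [if_pos h1, if_pos h1]
      by_cases h2 : b.2 = 0
      · rw [if_pos h2, if_pos h2]
        exact heta 2 0
      · rw [if_neg h2, if_neg h2]
        exact ((heta _ _).sub (((heta _ _).pow _).smul _)).smul _
    · rw [if_neg h1, if_neg h1]
      exact Agr.sum _ fun l _ => heta _ _
  exact hphi A₀ subset_rfl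

end Pool.Agent.H61.LIN
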